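import Pool.Agent.MP_fcd29e_an.H11.CS

/-!
The superharmonic function on a cell.
-/

set_option autoImplicit false

open Complex Set Filter Topology Metric Pool.Agent.MP_fcd29e_an.H11
open scoped ContDiff ComplexConjugate

namespace Pool.Agent.MP_fcd29e_an.H2

noncomputable section

namespace CCE

theorem mp {g : ℂ → ℂ} (hg : ∀ s, ‖s‖ ≤ 1 → DifferentiableAt ℂ g s) {C : ℝ}
    (hC : ∀ s, ‖s‖ = 1 → (g s).re ≤ C) {s : ℂ} (hs : ‖s‖ ≤ 1) : (g s).re ≤ C := by
  have hd : DiffContOnCl ℂ (fun s => exp (g s)) (ball 0 1) := by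
    refine DifferentiableOn.diffContOnCl fun y hy => ?_
    rw [closure_ball _ one_ne_zero, mem_closedBall_zero_iff] at hy
    exact (hg y hy).cexp.differentiableWithinAt
  have := norm_le_of_forall_mem_frontier_norm_le isBounded_ball hd (C := Real.exp C) (z := s)
    (fun y hy => by
      rw [frontier_ball _ one_ne_zero, mem_sphere_zero_iff_norm] at hy
      rw [norm_exp]
      exact Real.exp_le_exp.2 (hC y hy))
    (by rwa [closure_ball _ one_ne_zero, mem_closedBall_zero_iff])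
  rwa [norm_exp, Real.exp_le_exp] at this

theorem core {H : ℂ → ℂ} (hH : ∀ s, ‖s‖ ≤ 1 → DifferentiableAt ℂ H s) {t k : ℝ}
    (hb : ∀ y, ‖y‖ = 1 → (H y).re + (H (conj y)).re ≤ 2 * (t + k * (1 - y.re))) {ρ : ℝ}
    (h0 : 0 ≤ ρ) (h1 : ρ ≤ 1) : (H ρ).re ≤ t + k * (1 - ρ) := by
  have := mp (g := fun y => H y + conj (H (conj y)) - 2 * k * (1 - y)) (C := 2 * t) (s := ρ)
    (fun s hs => by
      have h2 : DifferentiableAt ℂ (conj ∘ H ∘ conj) s :=
        differentiableAt_conj_conj_iff.2 (hH _ (by rwa [norm_conj]))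
      exact ((hH s hs).add h2).sub (by fun_prop))
    (fun y hy => by
      have := hb y hy
      simp only [sub_re, add_re, conj_re, mul_re, re_ofNat, ofReal_re, im_ofNat, ofReal_im, mul_im,
        one_re]
      linarith)
    (by rwa [norm_real, Real.norm_of_nonneg h0])
  simp only [sub_re, add_re, conj_re, mul_re, re_ofNat, ofReal_re, im_ofNat, ofReal_im, mul_im,
    one_re, conj_ofReal] at this
  linarith

variable {ι : Type} [Fintype ι]

theorem ip_le (p w : ι → ℂ) : ‖ip p w‖ ^ 2 ≤ nsq p * nsq w := by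
  refine le_trans ?_ (Finset.sum_mul_sq_le_sq_mul_sq Finset.univ (fun k => ‖p k‖) fun k => ‖w k‖)
  refine pow_le_pow_left₀ (norm_nonneg _) ((norm_sum_le _ _).trans (le_of_eq ?_)) 2
  simp

theorem B_real {x : V ι} (hx : cj x = x) (t α β : ℂ) (w : ι → ℂ) :
    B x (t, fun k => α * conj (w k), fun k => β * w k) =
      -(x.1.re * t) + (β * conj (ip x.2.2 w) + α * ip x.2.2 w) / 2 := by
  have h1 : x.1 = x.1.re := (conj_eq_iff_re.1 (congrArg Prod.fst hx)).symm
  have h2 : ∀ k, x.2.1 k = conj (x.2.2 k) := fun k => (congrFun (congrArg (·.2.1) hx) k).symm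
  simp only [B, ip, map_sum, map_mul, conj_conj, Finset.mul_sum, ← Finset.sum_add_distrib, h2]
  rw [← h1]
  congr 2
  exact Finset.sum_congr rfl fun k _ => by ring

theorem cone_ip {x : V ι} (hx : x ∈ cone ι) {w : ι → ℂ} (hw : nsq w = 1) :
    (ip x.2.2 w).re ^ 2 + (ip x.2.2 w).im ^ 2 ≤ x.1.re ^ 2 := by
  have h1 : x.1 = x.1.re := (conj_eq_iff_re.1 (congrArg Prod.fst hx.1)).symm
  have h2 : ∀ k, x.2.1 k = conj (x.2.2 k) := fun k => (congrFun (congrArg (·.2.1) hx.1) k).symm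
  have h3 := hx.2.1
  have h4 : ∀ k, conj (x.2.2 k) * x.2.2 k + x.2.2 k * conj (x.2.2 k) =
      ((2 * ‖x.2.2 k‖ ^ 2 : ℝ) : ℂ) := fun k => by
    rw [mul_comm, mul_conj']; push_cast; ring
  simp only [B, h2, h4] at h3
  rw [h1, ← ofReal_sum, ← Finset.mul_sum] at h3
  have h5 : nsq x.2.2 = x.1.re ^ 2 := by
    have : -(x.1.re * x.1.re) + 2 * nsq x.2.2 / 2 = 0 := by exact_mod_cast h3
    linarith
  have h6 := ip_le x.2.2 w
  rw [hw, mul_one, h5, Complex.sq_norm, normSq_apply] at h6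
  linarith

variable {c S : ℝ} {w : ι → ℂ} {x : V ι}

theorem B_em (hx : cj x = x) : B x (em c S w) =
    ⟨c * (ip x.2.2 w).re - x.1.re * S, -(ip x.2.2 w).im⟩ := by
  rw [H11.em, B_real hx]
  apply Complex.ext <;> simp <;> ring

theorem B_ep (hx : cj x = x) : B x (ep c S w) = conj (B x (em c S w)) := by
  rw [ep, B_real hx, B_em hx]
  apply Complex.ext <;> simp <;> ring

theorem B_ctr (hx : cj x = x) :
    -B x (ctr c S w) = ((c * x.1.re - S * (ip x.2.2 w).re : ℝ) : ℂ) := by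
  rw [ctr, B_real hx]
  apply Complex.ext <;> simp <;> ring

theorem rot_apply (s : ℂ) (x : V ι) : rot c S w s x =
    x + ((s - 1) * B x (em c S w) / 2) • ep c S w +
      ((s⁻¹ - 1) * B x (ep c S w) / 2) • em c S w := by
  have e : ∀ v : V ι, Bl v x = B x v := fun _ => rfl
  simp only [rot, P0, Pp, Pm, add_apply, sub_apply, smul_apply,
    ContinuousLinearMap.smulRight_apply, one_apply_eq_self, e, smul_eq_mul]
  module

theorem lt_c (hA : Ax c S w) : S < c := by nlinarith [hA.hyp, hA.hc, hA.hS]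

theorem xh_pos (hA : Ax c S w) (hx : x ∈ cone ι) : 0 < c * x.1.re - S * (ip x.2.2 w).re := by
  have h1 := cone_ip hx hA.unit
  have h2 : (ip x.2.2 w).re ≤ x.1.re := by
    refine le_trans (le_abs_self _) (abs_le_of_sq_le_sq ?_ hx.2.2.le)
    nlinarith [sq_nonneg (ip x.2.2 w).im]
  nlinarith [lt_c hA, hA.hS, hx.2.2]

theorem em_le (hA : Ax c S w) (hx : x ∈ cone ι) :
    ‖B x (em c S w)‖ ^ 2 ≤ (c * x.1.re - S * (ip x.2.2 w).re) ^ 2 := by
  have h1 := cone_ip hx hA.unit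
  rw [B_em hx.1, Complex.sq_norm, normSq_mk]
  have h2 := hA.hyp
  have : (c * x.1.re - S * (ip x.2.2 w).re) ^ 2 - (c * (ip x.2.2 w).re - x.1.re * S) ^ 2 =
      (c ^ 2 - S ^ 2) * (x.1.re ^ 2 - (ip x.2.2 w).re ^ 2) := by ring
  rw [h2] at this
  nlinarith

/-- The normalised coefficient. -/
def bb (c S : ℝ) (w : ι → ℂ) (x : V ι) : ℂ := -S * B x (em c S w) / -B x (ctr c S w)

/-- Its squared norm, as a holomorphic function. -/
def MM (c S : ℝ) (w : ι → ℂ) (x : V ι) : ℂ :=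
  S ^ 2 * B x (em c S w) * B x (ep c S w) / (-B x (ctr c S w)) ^ 2

theorem bb_lt (hA : Ax c S w) (hx : x ∈ cone ι) : ‖bb c S w x‖ < c := by
  have h0 := xh_pos hA hx
  have h1 := abs_le_of_sq_le_sq (em_le hA hx) h0.le
  rw [abs_norm] at h1
  rw [bb, B_ctr hx.1, norm_div, norm_mul, norm_neg, norm_real, norm_real, Real.norm_of_nonneg hA.hS,
    Real.norm_of_nonneg h0.le, div_lt_iff₀ h0]
  nlinarith [lt_c hA, hA.hS]

theorem MM_eq (hx : cj x = x) : MM c S w x = ((‖bb c S w x‖ ^ 2 : ℝ) : ℂ) := by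
  rw [ofReal_pow, ← mul_conj', MM, bb, B_ep hx, B_ctr hx]
  simp only [map_div₀, map_mul, map_neg, conj_ofReal]
  ring

theorem B_smul (l : ℂ) (x v : V ι) : B (l • x) v = l * B x v := (Bl v).map_smul l x

theorem an_B (v : V ι) (q : ℂ × V ι) : AnalyticAt ℂ (fun q : ℂ × V ι => B q.2 v) q :=
  ((Bl v).comp (ContinuousLinearMap.snd ℂ ℂ (V ι))).analyticAt q

/-- The function on the cell. -/
def ff (h : ℂ × ℂ × ℂ → ℂ) (c S : ℝ) (w : ι → ℂ) (q : ℂ × V ι) : ℝ :=
  ((-B q.2 (ctr c S w)).re ^ 20)⁻¹ * ((h (c, MM c S w q.2, bb c S w q.2 * q.1)).re +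
    (32 * (2 * c) ^ 20)⁻¹ * (1 - ‖q.1‖ ^ 2))

theorem lap_neg (hHS : SHS) (hLV : SLV) {H : ℂ → ℂ} {s : ℂ} (hH : AnalyticAt ℂ H s) {K η : ℝ}
    (hK : 0 < K) (hη : 0 < η) : lap (fun y => K * ((H y).re + η * (1 - ‖y‖ ^ 2))) s < 0 := by
  obtain ⟨a1, a2, -⟩ := hLV.re ℂ H s 1 hH
  have hF : AnalyticAt ℂ (fun (y : ℂ) (_ : Unit) => y) s :=
    analyticAt_pi_iff.2 fun _ => analyticAt_id
  obtain ⟨-, b2, -⟩ := hLV.nsq ℂ Unit (fun y _ => y) s 1 hF
  have e : fderiv ℂ (fun (y : ℂ) (_ : Unit) => y) s 1 = fun _ => 1 := by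
    rw [fderiv_pi fun _ => differentiableAt_fun_id]
    funext u
    simp
  rw [e] at b2
  simp only [nsq, Finset.univ_unique, Finset.sum_singleton, norm_one] at b2
  have c1 : ContDiffAt ℝ 2 (fun y => (H y).re) s := a1.self_of_nhds.of_le (by norm_cast)
  have c2 : ContDiffAt ℝ 2 (fun y : ℂ => ‖y‖ ^ 2) s := (contDiff_norm_sq ℝ).contDiffAt
  have c3 : ContDiffAt ℝ 2 (fun y : ℂ => 1 - ‖y‖ ^ 2) s := contDiffAt_const.sub c2
  have c4 : ContDiffAt ℝ 2 (fun y : ℂ => η * (1 - ‖y‖ ^ 2)) s := contDiffAt_const.mul c3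
  have key : ∀ v, hs (fun y => K * ((H y).re + η * (1 - ‖y‖ ^ 2))) s v =
      K * (hs (fun y => (H y).re) s v - η * hs (fun y : ℂ => ‖y‖ ^ 2) s v) := fun v => by
    rw [(hHS.cmul ℂ _ K s v (c1.add c4)).1, (hHS.add ℂ _ _ s v c1 c4).1,
      (hHS.cmul ℂ _ η s v c3).1, (hHS.add ℂ _ _ s v contDiffAt_const c2).2.1,
      (hHS.cmul ℂ _ 1 s v c2).2.2]
    ring
  unfold lev at a2 b2
  rw [lap, lev, key, key]
  have : K * (η * 4) > 0 := by positivity
  nlinarith

end CCE

open CCE in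
theorem sce (hHS : SHS) (hLV : SLV) (hGR : SGR) (hC1 : SC1) (hC2 : SC2) : SCE := by
  obtain ⟨h, hh⟩ := hC1
  obtain ⟨η, C₀, hη, hC₀, hb⟩ := hC2
  refine ⟨η, C₀ + 1, hη, by linarith, fun ι _ c S w hA hS => ⟨ff h c S w, ?_, ?_⟩⟩
  · intro s hs x hx
    have h0 := xh_pos hA hx
    have hc := hA.hc
    have hβ := bb_lt hA hx
    have hX : -B x (ctr c S w) ≠ 0 := by rw [B_ctr hx.1]; exact_mod_cast h0.ne'
    have hXr : (-B x (ctr c S w)).re ≠ 0 := by rw [B_ctr hx.1, ofReal_re]; exact h0.ne'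
    have hK : 0 < ((-B x (ctr c S w)).re ^ 20)⁻¹ := by positivity
    have hH : ∀ y : ℂ, ‖y‖ ≤ 1 → AnalyticAt ℂ (fun y => h (c, MM c S w x, bb c S w x * y)) y :=
      fun y hy => by
        rw [MM_eq hx.1]
        exact AnalyticAt.comp
          (f := fun y => ((c : ℂ), ((‖bb c S w x‖ ^ 2 : ℝ) : ℂ), bb c S w x * y))
          (hh c _ hβ y hy).1 (by fun_prop)
    refine ⟨?_, ?_, lap_neg hHS hLV (hH s hs.le) hK (by positivity), fun l hl => ?_⟩
    · have a1 : AnalyticAt ℂ (fun q : ℂ × V ι => -B q.2 (ctr c S w)) (s, x) := (an_B _ _).neg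
      have a2 : AnalyticAt ℂ (fun q : ℂ × V ι => ((c : ℂ), MM c S w q.2, bb c S w q.2 * q.1))
          (s, x) := analyticAt_const.prod (AnalyticAt.prod
        (((analyticAt_const.mul (an_B _ _)).mul (an_B _ _)).div (a1.pow 2) (pow_ne_zero 2 hX))
        (((analyticAt_const.mul (an_B _ _)).div a1 hX).mul analyticAt_fst))
      have a3 : AnalyticAt ℂ (fun q : ℂ × V ι => h (c, MM c S w q.2, bb c S w q.2 * q.1)) (s, x) :=
        AnalyticAt.comp (f := fun q : ℂ × V ι => ((c : ℂ), MM c S w q.2, bb c S w q.2 * q.1))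
          (by
            have := (hh c _ hβ s hs.le).1
            rwa [← MM_eq hx.1] at this) a2
      have r : ∀ {g : ℂ × V ι → ℂ}, AnalyticAt ℂ g (s, x) →
          ContDiffAt ℝ ∞ (fun q => (g q).re) (s, x) := fun hg =>
        reCLM.contDiff.contDiffAt.comp _ (hg.contDiffAt.restrict_scalars ℝ)
      exact (((r a1).pow 20).inv (pow_ne_zero _ hXr)).mul ((r a3).add (contDiffAt_const.mul
        (contDiffAt_const.sub ((contDiff_norm_sq ℝ).contDiffAt.comp _ contDiffAt_fst))))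
    · have := mp (g := fun y => -h (c, MM c S w x, bb c S w x * y)) (C := 0)
        (fun y hy => (hH y hy).differentiableAt.neg)
        (fun y hy => by
          rw [MM_eq hx.1, neg_re, (hh c _ hβ y hy.le).2 hy, neg_nonpos]
          positivity) hs.le
      rw [neg_re, neg_nonpos] at this
      have h1 : 0 < 1 - ‖s‖ ^ 2 := by nlinarith [norm_nonneg s]
      exact mul_pos hK (add_pos_of_nonneg_of_pos this (by positivity))
    · have hl' : (l : ℂ) ≠ 0 := by exact_mod_cast hl.ne'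
      have hX' : B x (ctr c S w) ≠ 0 := neg_ne_zero.1 hX
      have e1 : bb c S w ((l : ℂ) • x) = bb c S w x := by
        simp only [bb, B_smul]; field_simp
      have e2 : MM c S w ((l : ℂ) • x) = MM c S w x := by
        simp only [MM, B_smul]; field_simp
      have e3 : (-B ((l : ℂ) • x) (ctr c S w)).re = l * (-B x (ctr c S w)).re := by
        rw [B_smul, ← mul_neg, re_ofReal_mul]
      simp only [ff, e1, e2, e3]
      field_simp
  · intro ρ e h0 h1 he x hx hr
    have hp := xh_pos hA hx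
    have hc := hA.hc
    have hβ := bb_lt hA hx
    have hyp := hA.hyp
    obtain ⟨a, ha⟩ : ∃ a, a = ip (rot c S w e x).2.2 w := ⟨_, rfl⟩
    obtain ⟨m, hm⟩ : ∃ m, m = B x (em c S w) := ⟨_, rfl⟩
    obtain ⟨X, hX⟩ : ∃ X, X = c * x.1.re - S * (ip x.2.2 w).re := ⟨_, rfl⟩
    have hei : e⁻¹ = conj e := inv_eq_conj he
    have m1 : m.re = c * (ip x.2.2 w).re - x.1.re * S := by rw [hm, B_em hx.1]
    have m2 : m.im = -(ip x.2.2 w).im := by rw [hm, B_em hx.1]
    have hww : ip w w = 1 := by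
      have := hA.unit
      simp only [ip, mul_conj', nsq] at this ⊢
      exact_mod_cast this
    have r1 : x.1.re + S * ((e * m).re - m.re) = 1 := by
      have := congrArg re hr
      rw [rot_apply, B_ep hx.1, ← hm, hei] at this
      simp [ep, H11.em] at this ⊢
      linarith
    have r2 : a = ip x.2.2 w + ((e - 1) * m / 2 * (c - 1) + (conj e - 1) * conj m / 2 * (c + 1)) *
        ip w w := by
      rw [ha, rot_apply, B_ep hx.1, ← hm, hei]
      simp only [ip, ep, H11.em, Prod.snd_add, Prod.smul_snd, Pi.add_apply, Pi.smul_apply, smul_eq_mul,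
        Finset.mul_sum, ← Finset.sum_add_distrib]
      exact Finset.sum_congr rfl fun k _ => by ring
    have r3 : a.re = (ip x.2.2 w).re + c * ((e * m).re - m.re) := by
      rw [r2, hww]; simp; ring
    have r4 : (e * m).im = -a.im := by
      have : a.im = (ip x.2.2 w).im - ((e * m).im - m.im) := by rw [r2, hww]; simp; ring
      linarith
    have r5 : (e * m).re = c * a.re - S := by
      rw [r3]; linear_combination m1 - S * r1 - ((e * m).re - m.re) * hyp
    have r6 : X = c - S * a.re := by rw [hX, r3]; linear_combination c * r1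
    have r7 : a.re ^ 2 + a.im ^ 2 ≤ 1 := by
      have := em_le hA hx
      rw [← hm, ← hX, ← one_mul ‖m‖, ← he, ← norm_mul, Complex.sq_norm, normSq_apply, r4, r5,
        r6] at this
      nlinarith
    rw [← hX] at hp
    have hXc : -B x (ctr c S w) = X := by rw [B_ctr hx.1, hX]
    have hH : ∀ y : ℂ, ‖y‖ ≤ 1 → DifferentiableAt ℂ
        (fun y => (((X ^ 20)⁻¹ : ℝ) : ℂ) * h (c, MM c S w x, bb c S w x * (y * e))) y :=
      fun y hy => by
        rw [MM_eq hx.1]
        refine DifferentiableAt.const_mul (AnalyticAt.differentiableAt ?_) _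
        exact AnalyticAt.comp
          (f := fun y => ((c : ℂ), ((‖bb c S w x‖ ^ 2 : ℝ) : ℂ), bb c S w x * (y * e)))
          (hh c _ hβ (y * e) (by rwa [norm_mul, he, mul_one])).1 (by fun_prop)
    have hv : ∀ y : ℂ, ‖y‖ = 1 →
        ((((X ^ 20)⁻¹ : ℝ) : ℂ) * h (c, MM c S w x, bb c S w x * (y * e))).re =
          ((1 + (1 - y.re) * (S ^ 2 - c * S * a.re) - S * -y.im * a.im) ^ 20)⁻¹ := fun y hy => by
      have hy' : ‖y * e‖ = 1 := by rw [norm_mul, he, hy, mul_one]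
      rw [re_ofReal_mul, MM_eq hx.1, (hh c _ hβ (y * e) hy'.le).2 hy', ← mul_inv, ← mul_pow]
      refine congrArg (fun t : ℝ => (t ^ 20)⁻¹) ?_
      have e1 : (X : ℂ) * (bb c S w x * (y * e)) = -S * (y * (e * m)) := by
        have : (X : ℂ) ≠ 0 := by exact_mod_cast hp.ne'
        rw [bb, hXc, ← hm]; field_simp
      have e2 := congrArg re e1
      rw [re_ofReal_mul, ← ofReal_neg, re_ofReal_mul, mul_re y, r4, r5] at e2
      rw [mul_sub, e2, r6]
      linear_combination hyp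
    have hs : ∀ y : ℂ, ‖y‖ = 1 → y.re ^ 2 + y.im ^ 2 = 1 := fun y hy => by
      have := Complex.sq_norm y
      rw [hy, normSq_apply] at this
      linarith
    have hsum : ∀ y : ℂ, ‖y‖ = 1 →
        ((((X ^ 20)⁻¹ : ℝ) : ℂ) * h (c, MM c S w x, bb c S w x * (y * e))).re +
        ((((X ^ 20)⁻¹ : ℝ) : ℂ) * h (c, MM c S w x, bb c S w x * (conj y * e))).re =
          ((1 + (1 - y.re) * (S ^ 2 - c * S * a.re) + S * y.im * a.im) ^ 20)⁻¹ +
          ((1 + (1 - y.re) * (S ^ 2 - c * S * a.re) - S * y.im * a.im) ^ 20)⁻¹ := fun y hy => by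
      rw [hv y hy, hv (conj y) (by rwa [norm_conj]), conj_re, conj_im, neg_neg,
        show S * -y.im * a.im = -(S * y.im * a.im) by ring, sub_neg_eq_add]
    have b := fun (y : ℂ) (hy : ‖y‖ = 1) =>
      hb c S a.re a.im y.re y.im _ _ hyp hc hS r7 (hs y hy) rfl rfl
    have u1 := core hH (t := 1) (k := C₀ * c ^ 48)
      (fun y hy => by rw [hsum y hy]; exact (b y hy).2.2.2.1) h0 h1.le
    have u2 := core (H := fun y => -((((X ^ 20)⁻¹ : ℝ) : ℂ) *
      h (c, MM c S w x, bb c S w x * (y * e)))) (fun y hy => (hH y hy).neg) (t := -1)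
      (k := C₀ * c ^ 48) (fun y hy => by
        have := (b y hy).2.2.1
        rw [← hsum y hy] at this
        rw [neg_re, neg_re]
        linarith) h0 h1.le
    have u3 : ‖a‖ ≤ η → _ := fun hη' => core hH (t := 1) (k := -(1 / 8)) (fun y hy => by
      have := (b y hy).2.2.2.2 (by
        have := pow_le_pow_left₀ (norm_nonneg _) hη' 2
        rw [Complex.sq_norm, normSq_apply] at this
        linarith)
      rw [← hsum y hy] at this
      linarith) h0 h1.le
    rw [neg_re] at u2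
    rw [re_ofReal_mul] at u1 u2 u3
    have c1 : 1 ≤ c := hS.trans (lt_c hA).le
    have c2 : 1 ≤ c ^ 48 := one_le_pow₀ c1
    have x1 : 1 ≤ X * (2 * c) := by
      have : a.re ≤ 1 := by nlinarith [sq_nonneg a.im]
      have h2 : c - S ≤ X := by rw [r6]; nlinarith
      nlinarith [lt_c hA]
    have t0 : 0 ≤ 1 - ρ := by linarith
    have t1 : 0 ≤ (X ^ 20)⁻¹ * ((32 * (2 * c) ^ 20)⁻¹ * (1 - ρ ^ 2)) := by
      have : 0 ≤ 1 - ρ ^ 2 := by nlinarith
      positivity
    have t2 : (X ^ 20)⁻¹ * ((32 * (2 * c) ^ 20)⁻¹ * (1 - ρ ^ 2)) ≤ (1 - ρ) / 16 := by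
      have h2 : (X ^ 20)⁻¹ * (32 * (2 * c) ^ 20)⁻¹ ≤ 1 / 32 := by
        rw [← mul_inv, mul_left_comm, ← mul_pow, one_div]
        exact inv_anti₀ (by norm_num) (le_mul_of_one_le_right (by norm_num) (one_le_pow₀ x1))
      have h3 : 1 - ρ ^ 2 ≤ 2 * (1 - ρ) := by nlinarith
      rw [← mul_assoc]
      exact (mul_le_mul h2 h3 (by nlinarith) (by norm_num)).trans (le_of_eq (by ring))
    have hf : ff h c S w (ρ * e, x) =
        (X ^ 20)⁻¹ * (h (c, MM c S w x, bb c S w x * (ρ * e))).re +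
          (X ^ 20)⁻¹ * ((32 * (2 * c) ^ 20)⁻¹ * (1 - ρ ^ 2)) := by
      rw [ff, hXc, ofReal_re, norm_mul, he, mul_one, norm_real, Real.norm_of_nonneg h0, mul_add]
    have t3 : 1 - ρ ≤ c ^ 48 * (1 - ρ) := le_mul_of_one_le_left t0 c2
    rw [hf, ← ha]
    exact ⟨by linarith, by linarith, fun hη' => by linarith [u3 hη']⟩

end

end Pool.Agent.MP_fcd29e_an.H2
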